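import Pool.Agent.W261.NM.Stm2
import Pool.Agent.W261.NM.Low
import Pool.Agent.W301.SS.Core
import Pool.Agent.W261.NM.Geo

/-!
Exponential sums over the first `N` primes at the frequencies `∑ lam_i b^(e_i)`.
-/

set_option autoImplicit false
set_option maxHeartbeats 400000
open Filter Topology Finset

namespace Pool.Agent.W978.NM

open Pool.Agent.W261.NM
open Pool.Agent.W301.SS
open Pool.Agent.H807R2.Dav

lemma ex_ee (x : ℝ) : ex x = ee x := by
  unfold ex ee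
  congr 1
  ring

/-- weight -/
noncomputable def fw (n : ℕ) : ℝ := 1 / Real.log (max n 2 : ℕ)

lemma fw_pos (n : ℕ) : 0 < fw n := by
  unfold fw
  have h : (1 : ℝ) < ((max n 2 : ℕ) : ℝ) := by
    have : 2 ≤ max n 2 := le_max_right _ _
    exact_mod_cast this
  have := Real.log_pos h
  positivity

lemma fw_anti (n : ℕ) : fw (n + 1) ≤ fw n := by
  unfold fw
  have h : (1 : ℝ) < ((max n 2 : ℕ) : ℝ) := by
    have : 2 ≤ max n 2 := le_max_right _ _
    exact_mod_cast this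
  have h2 : ((max n 2 : ℕ) : ℝ) ≤ ((max (n + 1) 2 : ℕ) : ℝ) := by
    exact_mod_cast max_le_max (Nat.le_succ n) le_rfl
  exact one_div_le_one_div_of_le (Real.log_pos h) (Real.log_le_log (by linarith) h2)

lemma fw_zero : fw 0 ≤ 2 := by
  unfold fw
  have h := Real.log_two_gt_d9
  have e : ((max 0 2 : ℕ) : ℝ) = 2 := by norm_num
  rw [e, div_le_iff₀ (by linarith)]
  linarith

lemma fw_om {n : ℕ} (hn : n.Prime) : fw n * om n = 1 := by
  unfold fw om
  have h2 : max n 2 = n := max_eq_left hn.two_le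
  rw [if_pos hn, h2]
  have : 0 < Real.log n := Real.log_pos (by exact_mod_cast hn.one_lt)
  field_simp

lemma SP_range (T : ℕ) (θ : ℝ) :
    SP T θ = ∑ n ∈ range (T + 1), ((om n : ℝ) : ℂ) * ee ((n : ℝ) * θ) := by
  unfold SP
  rw [Finset.sum_range_succ']
  have h0 : om 0 = 0 := by simp [om, Nat.not_prime_zero]
  rw [h0]
  simp only [Complex.ofReal_zero, zero_mul, add_zero]
  rw [Finset.sum_bij (fun n _ => n - 1)]
  · intro n hn
    rw [mem_Icc] at hn
    rw [mem_range]; omega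
  · intro a ha b hb h
    rw [mem_Icc] at ha hb
    omega
  · intro n hn
    rw [mem_range] at hn
    exact ⟨n + 1, by rw [mem_Icc]; omega, by omega⟩
  · intro n hn
    rw [mem_Icc] at hn
    rw [show n - 1 + 1 = n by omega]

lemma abel_bound (θ : ℝ) (P : ℕ) (B : ℝ) (hB : ∀ T, T ≤ P → ‖SP T θ‖ ≤ B) :
    ‖∑ n ∈ (range (P + 1)).filter Nat.Prime, ee ((n : ℝ) * θ)‖ ≤ 2 * B := by
  have hB0 : 0 ≤ B := (norm_nonneg _).trans (hB 0 (Nat.zero_le _))
  set a : ℕ → ℂ := fun n => ((om n : ℝ) : ℂ) * ee ((n : ℝ) * θ) with ha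
  have e1 : ∑ n ∈ (range (P + 1)).filter Nat.Prime, ee ((n : ℝ) * θ) =
      ∑ n ∈ range (P + 1), fw n • a n := by
    rw [sum_filter]
    refine Finset.sum_congr rfl fun n _ => ?_
    by_cases hn : n.Prime
    · rw [if_pos hn, ha]
      simp only [Complex.real_smul]
      rw [← mul_assoc, ← Complex.ofReal_mul, fw_om hn]
      simp
    · rw [if_neg hn, ha]
      simp [om, hn]
  have e2 : ∀ T, ∑ i ∈ range (T + 1), a i = SP T θ := fun T => (SP_range T θ).symm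
  rw [e1, Finset.sum_range_by_parts, Nat.add_sub_cancel]
  refine (norm_sub_le _ _).trans ?_
  have h1 : ‖fw P • ∑ i ∈ range (P + 1), a i‖ ≤ fw P * B := by
    rw [e2, norm_smul, Real.norm_of_nonneg (fw_pos P).le]
    exact mul_le_mul_of_nonneg_left (hB P le_rfl) (fw_pos P).le
  have h2 : ‖∑ i ∈ range P, (fw (i + 1) - fw i) • ∑ j ∈ range (i + 1), a j‖ ≤
      ∑ i ∈ range P, (fw i - fw (i + 1)) * B := by
    refine (norm_sum_le _ _).trans (Finset.sum_le_sum fun i hi => ?_)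
    rw [mem_range] at hi
    rw [e2, norm_smul, Real.norm_eq_abs, abs_sub_comm, abs_of_nonneg (sub_nonneg.2 (fw_anti i))]
    exact mul_le_mul_of_nonneg_left (hB i hi.le) (sub_nonneg.2 (fw_anti i))
  rw [← Finset.sum_mul, Finset.sum_range_sub'] at h2
  have h3 := fw_zero
  have h4 : fw P * B + (fw 0 - fw P) * B = fw 0 * B := by ring
  calc _ ≤ fw P * B + (fw 0 - fw P) * B := add_le_add h1 h2
    _ = fw 0 * B := h4
    _ ≤ 2 * B := mul_le_mul_of_nonneg_right h3 hB0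

lemma nth_image {N : ℕ} (hN : 1 ≤ N) :
    (range N).image (Nat.nth Nat.Prime) =
      (range (Nat.nth Nat.Prime (N - 1) + 1)).filter Nat.Prime := by
  ext p
  rw [mem_image, mem_filter, mem_range]
  have hmono : StrictMono (Nat.nth Nat.Prime) := Nat.nth_strictMono Nat.infinite_setOfPred_prime
  constructor
  · rintro ⟨m, hm, rfl⟩
    rw [mem_range] at hm
    refine ⟨?_, Nat.prime_nth_prime m⟩
    have := hmono.monotone (show m ≤ N - 1 by omega)
    omega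
  · rintro ⟨h1, h2⟩
    refine ⟨Nat.count Nat.Prime p, ?_, Nat.nth_count h2⟩
    rw [mem_range]
    by_contra hcon
    push Not at hcon
    have h3 := hmono (show N - 1 < Nat.count Nat.Prime p by omega)
    rw [Nat.nth_count h2] at h3
    omega

lemma sum_nth {N : ℕ} (hN : 1 ≤ N) (F : ℕ → ℂ) :
    ∑ m ∈ range N, F (Nat.nth Nat.Prime m) =
      ∑ p ∈ (range (Nat.nth Nat.Prime (N - 1) + 1)).filter Nat.Prime, F p := by
  rw [← nth_image hN, Finset.sum_image]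
  intro a _ b _ h
  exact (Nat.nth_strictMono Nat.infinite_setOfPred_prime).injective h

lemma piP (k : ℕ) : Nat.primeCounting (Nat.nth Nat.Prime k) = k + 1 := by
  rw [Nat.primeCounting, Nat.primeCounting', Nat.count_succ,
    Nat.count_nth_of_infinite Nat.infinite_setOfPred_prime, if_pos (Nat.prime_nth_prime k)]

lemma le_P {N : ℕ} (hN : 1 ≤ N) : N ≤ Nat.nth Nat.Prime (N - 1) := by
  have h := Nat.add_two_le_nth_prime (N - 1)
  omega

lemma P_bound (δ : ℝ) (hδ : 0 < δ) :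
    ∀ᶠ N : ℕ in atTop, (Nat.nth Nat.Prime (N - 1) : ℝ) ≤ (N : ℝ) ^ (1 + δ) := by
  have h1 : ∀ᶠ x : ℝ in atTop, Real.log x ≤ (Real.log 2 / 3) * x ^ (δ / (1 + δ)) := by
    have h2 := (isLittleO_log_rpow_atTop (show 0 < δ / (1 + δ) by positivity)).bound
      (show 0 < Real.log 2 / 3 by have := Real.log_two_gt_d9; linarith)
    filter_upwards [h2, eventually_ge_atTop 1] with x hx hx1
    rw [Real.norm_eq_abs, Real.norm_eq_abs, abs_of_nonneg (Real.log_nonneg hx1),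
      abs_of_nonneg (by positivity)] at hx
    exact hx
  obtain ⟨X0, hX0⟩ := eventually_atTop.1 h1
  filter_upwards [eventually_ge_atTop 2, tendsto_natCast_atTop_atTop.eventually_ge_atTop X0]
    with N hN hNX
  set P := Nat.nth Nat.Prime (N - 1) with hP
  have hNP : N ≤ P := le_P (by omega)
  have hNPr : (N : ℝ) ≤ P := by exact_mod_cast hNP
  have hP2 : (2 : ℝ) ≤ P := by exact_mod_cast hN.trans hNP
  have hlog : 0 < Real.log P := Real.log_pos (by linarith)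
  have h3 := hX0 P (hNX.trans hNPr)
  by_contra hcon
  push Not at hcon
  have hN0 : (0 : ℝ) < N := by exact_mod_cast (by omega : 0 < N)
  have h4 : (N : ℝ) < (P : ℝ) ^ (1 / (1 + δ)) := by
    have h5 := Real.rpow_lt_rpow (by positivity) hcon (show 0 < 1 / (1 + δ) by positivity)
    rw [← Real.rpow_mul hN0.le, mul_one_div_cancel (by positivity), Real.rpow_one] at h5
    exact h5
  have h5 := Chebyshev.pi_ge P
  rw [piP, div_le_iff₀ hlog] at h5
  have hN1 : ((N - 1 + 1 : ℕ) : ℝ) = N := by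
    rw [Nat.sub_add_cancel (by omega)]
  rw [hN1] at h5
  have h6 : Real.log (P + 1) ≤ 2 * Real.log P := by
    rw [← Real.log_rpow (by linarith)] 
    apply Real.log_le_log (by linarith)
    rw [Real.rpow_two]
    nlinarith
  have h7 : (1 : ℝ) ≤ (P : ℝ) ^ (1 / (1 + δ)) :=
    Real.one_le_rpow (by linarith) (by positivity)
  have h8 : (P : ℝ) ^ (1 / (1 + δ)) * (P : ℝ) ^ (δ / (1 + δ)) = P := by
    rw [← Real.rpow_add (by linarith), ← add_div, div_self (by positivity), Real.rpow_one]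
  have h9 : (N : ℝ) * Real.log P < (P : ℝ) ^ (1 / (1 + δ)) * Real.log P :=
    mul_lt_mul_of_pos_right h4 hlog
  have h10 : (P : ℝ) ^ (1 / (1 + δ)) * Real.log P ≤
      (P : ℝ) ^ (1 / (1 + δ)) * ((Real.log 2 / 3) * (P : ℝ) ^ (δ / (1 + δ))) :=
    mul_le_mul_of_nonneg_left h3 (by linarith)
  have h11 : (P : ℝ) ^ (1 / (1 + δ)) * ((Real.log 2 / 3) * (P : ℝ) ^ (δ / (1 + δ))) =
      Real.log 2 / 3 * P := by
    rw [← h8]
    have : (P : ℝ) ^ (1 / (1 + δ)) * (P : ℝ) ^ (δ / (1 + δ)) = P := h8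
    rw [this]
    linear_combination (Real.log 2 / 3) * this
  have h12 : Real.log P ≤ (P : ℝ) ^ (1 / (1 + δ)) * Real.log P := by
    nlinarith
  nlinarith

lemma ev_rpow (D ε : ℝ) (hε : 0 < ε) : ∀ᶠ N : ℕ in atTop, D ≤ (N : ℝ) ^ ε :=
  ((tendsto_rpow_atTop hε).comp tendsto_natCast_atTop_atTop).eventually_ge_atTop D

lemma ev_log (C1 c1 : ℝ) (hC1 : 0 < C1) (hc1 : 0 < c1) :
    ∀ᶠ N : ℕ in atTop, 4 * C1 * (1 + 2 * Real.log N) ^ 7 ≤ (N : ℝ) ^ (c1 / 16) := by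
  set ε : ℝ := c1 / 224 with hε
  have hε0 : 0 < ε := by positivity
  filter_upwards [ev_rpow (4 * C1 * (1 + 2 / ε) ^ 7) (c1 / 32) (by positivity),
    eventually_ge_atTop 1] with N hN hN1
  have hN1r : (1 : ℝ) ≤ N := by exact_mod_cast hN1
  have h1 := Real.log_le_rpow_div (show (0 : ℝ) ≤ N by linarith) hε0
  have h2 : (1 : ℝ) ≤ (N : ℝ) ^ ε := Real.one_le_rpow hN1r hε0.le
  have h3 : 1 + 2 * Real.log N ≤ (1 + 2 / ε) * (N : ℝ) ^ ε := by
    have : (1 + 2 / ε) * (N : ℝ) ^ ε = (N : ℝ) ^ ε + 2 * ((N : ℝ) ^ ε / ε) := by ring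
    rw [this]
    linarith
  have h4 : 0 ≤ 1 + 2 * Real.log N := by
    have := Real.log_nonneg hN1r
    linarith
  have h5 : (1 + 2 * Real.log N) ^ 7 ≤ (1 + 2 / ε) ^ 7 * (N : ℝ) ^ (c1 / 32) := by
    refine (pow_le_pow_left₀ h4 h3 7).trans (le_of_eq ?_)
    rw [mul_pow, ← Real.rpow_natCast ((N : ℝ) ^ ε), ← Real.rpow_mul (by linarith)]
    congr 2
    rw [hε]
    push_cast
    ring
  have h6 : 0 ≤ (N : ℝ) ^ (c1 / 32) := by positivity
  calc 4 * C1 * (1 + 2 * Real.log N) ^ 7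
      ≤ 4 * C1 * ((1 + 2 / ε) ^ 7 * (N : ℝ) ^ (c1 / 32)) := by gcongr
    _ = (4 * C1 * (1 + 2 / ε) ^ 7) * (N : ℝ) ^ (c1 / 32) := by ring
    _ ≤ (N : ℝ) ^ (c1 / 32) * (N : ℝ) ^ (c1 / 32) := by gcongr
    _ = _ := by
        rw [← Real.rpow_add (by linarith)]
        congr 1
        ring

lemma dirichlet {N : ℕ} (hN : 2 ≤ N) {θ κ : ℝ}
    (hmin : ∀ q : ℕ, 1 ≤ q → (q : ℝ) ≤ (N : ℝ) ^ κ → ∀ a : ℤ,
      (N : ℝ) ^ (-(1 / 4 : ℝ)) < |(q : ℝ) * θ - a|) :
    ∃ (q : ℕ) (a : ℤ), 1 ≤ q ∧ IsCoprime a (q : ℤ) ∧ |θ - a / q| ≤ 1 / (q : ℝ) ^ 2 ∧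
      (N : ℝ) ^ κ < q ∧ (q : ℝ) ≤ 2 * (N : ℝ) ^ (1 / 4 : ℝ) := by
  have hN1 : (1 : ℝ) ≤ N := by exact_mod_cast (by omega : 1 ≤ N)
  set n : ℕ := ⌊(N : ℝ) ^ (1 / 4 : ℝ)⌋₊ + 1 with hn
  have hq4 : (1 : ℝ) ≤ (N : ℝ) ^ (1 / 4 : ℝ) := Real.one_le_rpow hN1 (by norm_num)
  have hn1 : (N : ℝ) ^ (1 / 4 : ℝ) < n := by
    rw [hn]; push_cast; exact Nat.lt_floor_add_one _
  have hn2 : (n : ℝ) ≤ 2 * (N : ℝ) ^ (1 / 4 : ℝ) := by
    rw [hn]; push_cast
    have := Nat.floor_le (show 0 ≤ (N : ℝ) ^ (1 / 4 : ℝ) by linarith)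
    linarith
  obtain ⟨r, hr, hrn⟩ := Real.exists_rat_abs_sub_le_and_den_le θ (show 0 < n by omega)
  have hq1 : 1 ≤ r.den := r.pos
  have hq0 : (0 : ℝ) < r.den := by exact_mod_cast r.pos
  have hqn : (r.den : ℝ) ≤ n := by exact_mod_cast hrn
  have hcast : (r : ℝ) = (r.num : ℝ) / r.den := Rat.cast_def r
  rw [hcast] at hr
  refine ⟨r.den, r.num, hq1, ?_, ?_, ?_, hqn.trans hn2⟩
  · rw [Int.isCoprime_iff_gcd_eq_one]
    exact r.reduced
  · refine hr.trans ?_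
    apply one_div_le_one_div_of_le (by positivity)
    rw [sq]
    apply mul_le_mul_of_nonneg_right _ hq0.le
    linarith
  · by_contra hcon
    push Not at hcon
    have h1 := hmin r.den hq1 hcon r.num
    have h2 : |(r.den : ℝ) * θ - r.num| = r.den * |θ - r.num / r.den| := by
      rw [← abs_of_pos hq0, ← abs_mul, abs_of_pos hq0]
      congr 1
      field_simp
    rw [h2] at h1
    have h3 : (r.den : ℝ) * |θ - r.num / r.den| ≤ 1 / (n + 1) := by
      calc (r.den : ℝ) * |θ - r.num / r.den| ≤ r.den * (1 / ((n + 1) * r.den)) := by gcongr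
        _ = 1 / (n + 1) := by field_simp
    have h4 : (1 : ℝ) / (n + 1) ≤ (N : ℝ) ^ (-(1 / 4 : ℝ)) := by
      rw [Real.rpow_neg (by linarith), ← one_div]
      apply one_div_le_one_div_of_le (by linarith)
      linarith
    linarith

lemma VB_bd {N q : ℕ} (hN : 2 ≤ N) {c1 : ℝ} (hc1 : 0 < c1) (hc4 : c1 ≤ 1 / 4)
    (hq1 : (N : ℝ) ^ (c1 / 2) < q) (hq2 : (q : ℝ) ≤ 2 * (N : ℝ) ^ (1 / 4 : ℝ)) :
    VB ((N : ℝ) ^ (1 + c1 / 64)) q ≤ 4 * (N : ℝ) ^ (1 - 3 * c1 / 16) := by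
  have hN1 : (1 : ℝ) ≤ N := by exact_mod_cast (by omega : 1 ≤ N)
  have hN0 : (0 : ℝ) < N := by linarith
  have hq0 : (0 : ℝ) < q := lt_trans (by positivity) hq1
  unfold VB
  have h1 : (N : ℝ) ^ (c1 / 4) ≤ √(q : ℝ) := by
    apply Real.le_sqrt_of_sq_le
    rw [← Real.rpow_natCast, ← Real.rpow_mul hN0.le]
    refine le_trans (le_of_eq ?_) hq1.le
    congr 1
    push_cast
    ring
  have hs : 0 < (N : ℝ) ^ (c1 / 4) := by positivity
  have a1 : (N : ℝ) ^ (1 + c1 / 64) / √(q : ℝ) ≤ (N : ℝ) ^ (1 - 3 * c1 / 16) := by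
    calc (N : ℝ) ^ (1 + c1 / 64) / √(q : ℝ) ≤ (N : ℝ) ^ (1 + c1 / 64) / (N : ℝ) ^ (c1 / 4) := by
          gcongr
      _ = (N : ℝ) ^ (1 + c1 / 64 - c1 / 4) := (Real.rpow_sub hN0 _ _).symm
      _ ≤ _ := Real.rpow_le_rpow_of_exponent_le hN1 (by linarith)
  have a2 : ((N : ℝ) ^ (1 + c1 / 64)) ^ (4 / 5 : ℝ) ≤ (N : ℝ) ^ (1 - 3 * c1 / 16) := by
    rw [← Real.rpow_mul hN0.le]
    exact Real.rpow_le_rpow_of_exponent_le hN1 (by linarith)
  have a3 : √((N : ℝ) ^ (1 + c1 / 64) * q) ≤ 2 * (N : ℝ) ^ (1 - 3 * c1 / 16) := by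
    rw [Real.sqrt_le_left (by positivity)]
    calc (N : ℝ) ^ (1 + c1 / 64) * q ≤ (N : ℝ) ^ (1 + c1 / 64) * (2 * (N : ℝ) ^ (1 / 4 : ℝ)) := by
          gcongr
      _ = 2 * (N : ℝ) ^ (1 + c1 / 64 + 1 / 4) := by
          rw [Real.rpow_add hN0 (1 + c1 / 64) (1 / 4)]; ring
      _ ≤ 4 * (N : ℝ) ^ ((1 - 3 * c1 / 16) * 2) := by
          have h5 : (N : ℝ) ^ (1 + c1 / 64 + 1 / 4) ≤ (N : ℝ) ^ ((1 - 3 * c1 / 16) * 2) :=
            Real.rpow_le_rpow_of_exponent_le hN1 (by linarith)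
          have h6 : 0 ≤ (N : ℝ) ^ (1 + c1 / 64 + 1 / 4) := by positivity
          linarith
      _ = _ := by
          rw [mul_pow, ← Real.rpow_natCast ((N : ℝ) ^ (1 - 3 * c1 / 16)), ← Real.rpow_mul hN0.le]
          push_cast
          ring
  linarith

theorem prime_ : Pool.Agent.W261.NM.S_prime := by
  intro b hb ξ halg hirr s C hC
  obtain ⟨c0, hc0, N0, hlow⟩ := lowbd b hb ξ halg hirr s C (1 / 4) hC (by norm_num)
  obtain ⟨C1, hC1, hvin⟩ := vinoP
  set c1 : ℝ := min c0 (1 / 4) with hc1d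
  have hc1 : 0 < c1 := lt_min hc0 (by norm_num)
  have hc10 : c1 ≤ c0 := min_le_left _ _
  have hc14 : c1 ≤ 1 / 4 := min_le_right _ _
  refine ⟨c1 / 64, by positivity, by linarith, ?_⟩
  obtain ⟨N1, hN1⟩ := eventually_atTop.1 ((P_bound (c1 / 64) (by positivity)).and
    ((ev_log C1 c1 hC1 hc1).and ((ev_rpow 2 (7 * c1 / 64) (by positivity)).and
      (eventually_ge_atTop (max N0 2)))))
  refine ⟨N1, fun N hN K H hK hH x e he lam hlam hM => ?_⟩
  obtain ⟨h1, h2, h3, h4⟩ := hN1 N hN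
  have hN2 : 2 ≤ N := (le_max_right _ _).trans h4
  have hNN0 : N0 ≤ N := (le_max_left _ _).trans h4
  have hNr : (1 : ℝ) ≤ N := by exact_mod_cast (by omega : 1 ≤ N)
  have hNp : (0 : ℝ) < N := by linarith
  set M : ℤ := ∑ i, lam i * (b : ℤ) ^ (e i) with hMd
  set θ : ℝ := (M : ℝ) * ξ with hθ
  -- no small denominators
  have hmin : ∀ q : ℕ, 1 ≤ q → (q : ℝ) ≤ (N : ℝ) ^ (c1 / 2) → ∀ a : ℤ,
      (N : ℝ) ^ (-(1 / 4 : ℝ)) < |(q : ℝ) * θ - a| := by
    intro q hq hqN a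
    have e1 : ∑ i, ((q : ℤ) * lam i) * (b : ℤ) ^ (e i) = q * M := by
      rw [hMd, Finset.mul_sum]
      exact Finset.sum_congr rfl fun i _ => by ring
    have h5 := hlow N hNN0 e (fun i => by
      have : (e i : ℝ) ≤ K := by exact_mod_cast he i
      exact this.trans hK) (fun i => (q : ℤ) * lam i) (fun i => by
      push_cast
      rw [abs_mul, abs_of_nonneg (Nat.cast_nonneg q)]
      calc (q : ℝ) * |(lam i : ℝ)| ≤ (N : ℝ) ^ (c1 / 2) * (N : ℝ) ^ (c1 / 64) := by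
            apply mul_le_mul hqN ((hlam i).trans hH) (abs_nonneg _) (by positivity)
        _ = (N : ℝ) ^ (c1 / 2 + c1 / 64) := (Real.rpow_add hNp _ _).symm
        _ ≤ (N : ℝ) ^ c0 := Real.rpow_le_rpow_of_exponent_le hNr (by linarith)) (by
      rw [e1]
      exact mul_ne_zero (by exact_mod_cast (by omega : q ≠ 0)) hM) a
    rw [e1] at h5
    have e2 : ξ * ((q * M : ℤ) : ℝ) = q * θ := by
      rw [hθ]; push_cast; ring
    rw [e2] at h5
    exact h5
  obtain ⟨q, a, hq1, hcop, hqa, hqN, hqN2⟩ := dirichlet hN2 hmin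
  -- sums over primes
  set P : ℕ := Nat.nth Nat.Prime (N - 1) with hP
  have hSP : ∀ T, T ≤ P → ‖SP T θ‖ ≤ (N : ℝ) ^ (1 - c1 / 8) := by
    intro T hT
    rcases Nat.eq_zero_or_pos T with h0 | h0
    · subst h0
      have : SP 0 θ = 0 := by simp [SP]
      rw [this, norm_zero]
      positivity
    · have hTr : (1 : ℝ) ≤ T := by exact_mod_cast h0
      have hTX : (T : ℝ) ≤ (N : ℝ) ^ (1 + c1 / 64) := by
        have : (T : ℝ) ≤ P := by exact_mod_cast hT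
        exact this.trans h1
      have h5 := hvin T q h0 hq1 a hcop θ hqa
      have h6 : VB T q ≤ 4 * (N : ℝ) ^ (1 - 3 * c1 / 16) := by
        refine (VB_mono (by linarith) hTX (by exact_mod_cast hq1)).trans ?_
        exact VB_bd hN2 hc1 hc14 hqN hqN2
      have h7 : Real.log T ≤ 2 * Real.log N := by
        have h8 := Real.log_le_log (by linarith) hTX
        rw [Real.log_rpow hNp] at h8
        have h9 := Real.log_nonneg hNr
        nlinarith
      have h8 : 0 ≤ Real.log T := Real.log_nonneg hTr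
      refine h5.trans ?_
      calc C1 * (1 + Real.log T) ^ 7 * VB T q
          ≤ C1 * (1 + 2 * Real.log N) ^ 7 * (4 * (N : ℝ) ^ (1 - 3 * c1 / 16)) := by
            apply mul_le_mul _ h6 (by unfold VB; positivity) (by positivity)
            gcongr
        _ = (4 * C1 * (1 + 2 * Real.log N) ^ 7) * (N : ℝ) ^ (1 - 3 * c1 / 16) := by ring
        _ ≤ (N : ℝ) ^ (c1 / 16) * (N : ℝ) ^ (1 - 3 * c1 / 16) := by gcongr
        _ = (N : ℝ) ^ (1 - c1 / 8) := by
            rw [← Real.rpow_add hNp]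
            congr 1
            ring
  have h5 := abel_bound θ P _ hSP
  -- the sum of the statement
  have e3 : ∀ m : ℕ, ex ((M : ℝ) * (x + ξ * (Nat.nth Nat.Prime m : ℝ))) =
      ex ((M : ℝ) * x) * ee ((Nat.nth Nat.Prime m : ℝ) * θ) := by
    intro m
    rw [← ex_ee, ← ex_add]
    congr 1
    rw [hθ]; ring
  rw [Finset.sum_congr rfl fun m _ => e3 m, ← Finset.mul_sum, norm_mul, norm_ex, one_mul,
    sum_nth (by omega) (fun p => ee ((p : ℝ) * θ))]
  refine h5.trans ?_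
  calc 2 * (N : ℝ) ^ (1 - c1 / 8) ≤ (N : ℝ) ^ (7 * c1 / 64) * (N : ℝ) ^ (1 - c1 / 8) := by gcongr
    _ = _ := by
        rw [← Real.rpow_add hNp]
        congr 1
        ring

end Pool.Agent.W978.NM
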